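import Pool.Agent.Lib.MP_d90615_h62.KThmK

/-!
Terminals: splitting, deletion and contraction of an edge at a terminal, and the row sums of the
response matrix.
-/

set_option autoImplicit false

namespace Pool.Agent.Lib.MP_d90615_h4

open Matrix Finset Pool.Agent.Lib.MP_d90615_co Pool.Agent.Lib.MP_d90615_h62.KT
open scoped Classical

variable {V E : Type*}

/-- the number of forests in `S` in which `U` is separated -/
noncomputable def TT (ends : E → Sym2 V) (S : Finset E) (U : Finset V) : ℝ :=
  cnt ends S (fun F => Sep ends F U)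

/-- the number of forests in `S` in which `i`, `j` are joined and nothing else in `U` -/
noncomputable def XX (ends : E → Sym2 V) (S : Finset E) (U : Finset V) (i j : V) : ℝ :=
  cnt ends S (fun F => Pair ends F U i j)

lemma TT_pos (ends : E → Sym2 V) (S : Finset E) (U : Finset V) : 0 < TT ends S U :=
  cnt_pos fun _ _ _ _ hij h => hij (conn_empty h)

lemma XX_nonneg (ends : E → Sym2 V) (S : Finset E) (U : Finset V) (i j : V) :
    0 ≤ XX ends S U i j := cnt_nonneg _ _ _

lemma pair_symm {ends : E → Sym2 V} {F : Finset E} {U : Finset V} {i j : V}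
    (h : Pair ends F U i j) : Pair ends F U j i :=
  ⟨h.1.symm, h.2.1.symm, fun k hk l hl hkl hc => (h.2.2 k hk l hl hkl hc).symm⟩

lemma XX_symm (ends : E → Sym2 V) (S : Finset E) (U : Finset V) (i j : V) :
    XX ends S U i j = XX ends S U j i :=
  cnt_congr fun _ _ _ => ⟨pair_symm, pair_symm⟩

lemma XX_self (ends : E → Sym2 V) (S : Finset E) (U : Finset V) (i : V) :
    XX ends S U i i = 0 := cnt_false fun _ _ _ h => h.1 rfl

/-- `T(U) = T(U ∪ v) + Σ_s X_{sv}(U ∪ v)` -/
lemma TT_split (ends : E → Sym2 V) (S : Finset E) {U : Finset V} {v : V} (hv : v ∉ U) :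
    TT ends S U = TT ends S (insert v U) + ∑ s ∈ insert v U, XX ends S (insert v U) s v := by
  unfold TT XX cnt
  rw [Finset.sum_comm, ← Finset.sum_add_distrib]
  refine Finset.sum_congr rfl fun F _ => ?_
  by_cases h1 : Sep ends F (insert v U)
  · have h2 : Sep ends F U := fun i hi j hj =>
      h1 i (Finset.mem_insert_of_mem hi) j (Finset.mem_insert_of_mem hj)
    rw [ind_pos h1, ind_pos h2, Finset.sum_eq_zero, add_zero]
    intro s hs
    refine ind_neg fun h3 => ?_
    exact h1 s hs v (Finset.mem_insert_self _ _) h3.1 h3.2.1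
  · rw [ind_neg h1, zero_add]
    by_cases h2 : Sep ends F U
    · rw [ind_pos h2]
      -- the unique `s`
      have h3 : ∃ s ∈ U, Conn ends F s v := by
        unfold Pool.Agent.Lib.MP_d90615_h62.KT.Sep at h1
        push Not at h1
        obtain ⟨i, hi, j, hj, hij, hc⟩ := h1
        rcases Finset.mem_insert.1 hi with hi' | hi'
        · rcases Finset.mem_insert.1 hj with hj' | hj'
          · exact absurd (hi'.trans hj'.symm) hij
          · rw [hi'] at hc
            exact ⟨j, hj', hc.symm⟩
        · rcases Finset.mem_insert.1 hj with hj' | hj'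
          · rw [hj'] at hc
            exact ⟨i, hi', hc⟩
          · exact absurd hc (h2 i hi' j hj' hij)
      obtain ⟨s, hs, hsv⟩ := h3
      have hsne : s ≠ v := fun h => hv (h ▸ hs)
      have hP : Pair ends F (insert v U) s v := by
        refine ⟨hsne, hsv, fun k hk l hl hkl hc => ?_⟩
        rcases Finset.mem_insert.1 hk with hk' | hk'
        · rcases Finset.mem_insert.1 hl with hl' | hl'
          · exact absurd (hk'.trans hl'.symm) hkl
          · right
            refine ⟨hk', ?_⟩
            by_contra h4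
            rw [hk'] at hc
            exact h2 l hl' s hs h4 (hc.symm.trans hsv.symm)
        · rcases Finset.mem_insert.1 hl with hl' | hl'
          · left
            refine ⟨?_, hl'⟩
            by_contra h4
            rw [hl'] at hc
            exact h2 k hk' s hs h4 (hc.trans hsv.symm)
          · exact absurd hc (h2 k hk' l hl' hkl)
      rw [Finset.sum_eq_single s, ind_pos hP]
      · intro t ht hts
        refine ind_neg fun h4 => ?_
        rcases Finset.mem_insert.1 ht with rfl | ht
        · exact h4.1 rfl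
        · exact h2 t ht s hs hts (h4.2.1.trans hsv.symm)
      · intro h4
        exact absurd (Finset.mem_insert_of_mem hs) h4
    · rw [ind_neg h2, Finset.sum_eq_zero]
      intro s _
      refine ind_neg fun h3 => h2 ?_
      intro k hk l hl hkl hc
      rcases h3.2.2 k (Finset.mem_insert_of_mem hk) l (Finset.mem_insert_of_mem hl) hkl hc with
        ⟨_, h4⟩ | ⟨h4, _⟩
      · exact hv (h4 ▸ hl)
      · exact hv (h4 ▸ hk)

/-- the form at an indicator is a row sum -/
lemma QQ_single (ends : E → Sym2 V) (S : Finset E) {U : Finset V} {j : V} (hj : j ∈ U) :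
    QQ ends S U (fun _ => True) (fun w => if w = j then 1 else 0) =
      ∑ s ∈ U, XX ends S U s j := by
  have h1 : ∀ i ∈ U, ∀ k ∈ U, cnt ends S (fun F => Pair ends F U i k ∧ True) *
      ((if i = j then (1 : ℝ) else 0) - (if k = j then 1 else 0)) ^ 2 =
      (if i = j then XX ends S U i k else 0) + (if k = j then XX ends S U i k else 0) := by
    intro i _ k _
    have h2 : cnt ends S (fun F => Pair ends F U i k ∧ True) = XX ends S U i k :=
      cnt_congr fun _ _ _ => ⟨fun h => h.1, fun h => ⟨h, trivial⟩⟩
    rw [h2]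
    by_cases hi : i = j
    · by_cases hk : k = j
      · subst hi
        subst hk
        rw [XX_self]
        simp
      · simp [hi, hk]
    · by_cases hk : k = j
      · simp [hi, hk]
      · simp [hi, hk]
  unfold QQ
  rw [Finset.sum_congr rfl (fun i hi => Finset.sum_congr rfl (fun k hk => h1 i hi k hk))]
  simp only [Finset.sum_add_distrib]
  have h3 : ∑ i ∈ U, ∑ k ∈ U, (if i = j then XX ends S U i k else 0) =
      ∑ s ∈ U, XX ends S U s j := by
    rw [Finset.sum_comm]
    refine Finset.sum_congr rfl fun k _ => ?_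
    rw [Finset.sum_ite_eq' U j (fun i => XX ends S U i k), if_pos hj, XX_symm]
  have h4 : ∑ i ∈ U, ∑ k ∈ U, (if k = j then XX ends S U i k else 0) =
      ∑ s ∈ U, XX ends S U s j := by
    refine Finset.sum_congr rfl fun i _ => ?_
    rw [Finset.sum_ite_eq' U j (fun k => XX ends S U i k), if_pos hj]
  rw [h3, h4]
  ring

section DelCon

variable {ends : E → Sym2 V} {S : Finset E} {e : E} {c w : V} {U : Finset V}

lemma sep_con (he : ends e = s(c, w)) (hw : w ∉ U) (F : Finset E) :
    Sep ends (insert e F) U ↔ Sep (con ends c w) F U := by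
  have hcc : ∀ i ∈ U, ∀ j ∈ U, (Conn ends (insert e F) i j ↔ Conn (con ends c w) F i j) := by
    intro i hi j hj
    have hiw : i ≠ w := fun h => hw (h ▸ hi)
    have hjw : j ≠ w := fun h => hw (h ▸ hj)
    rw [← conn_con he, gl_of_ne hiw, gl_of_ne hjw]
  unfold Pool.Agent.Lib.MP_d90615_h62.KT.Sep
  refine forall₂_congr fun i hi => forall₂_congr fun j hj => ?_
  rw [hcc i hi j hj]

lemma pair_con (he : ends e = s(c, w)) (hw : w ∉ U) (F : Finset E) {i j : V} (hi : i ∈ U)
    (hj : j ∈ U) : Pair ends (insert e F) U i j ↔ Pair (con ends c w) F U i j := by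
  have hcc : ∀ i ∈ U, ∀ j ∈ U, (Conn ends (insert e F) i j ↔ Conn (con ends c w) F i j) := by
    intro i hi j hj
    have hiw : i ≠ w := fun h => hw (h ▸ hi)
    have hjw : j ≠ w := fun h => hw (h ▸ hj)
    rw [← conn_con he, gl_of_ne hiw, gl_of_ne hjw]
  unfold Pair
  rw [hcc i hi j hj]
  refine and_congr_right fun _ => and_congr_right fun _ =>
    forall₂_congr fun k hk => forall₂_congr fun l hl => ?_
  rw [hcc k hk l hl]

lemma TT_del_con (he : ends e = s(c, w)) (hc : c ∈ U) (hw : w ∉ U) (heS : e ∉ S) :
    TT ends (insert e S) U = TT ends S U + TT (con ends c w) S U :=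
  cnt_del_con he (fun h => hw (h ▸ hc)) heS fun F _ => sep_con he hw F

lemma XX_del_con (he : ends e = s(c, w)) (hc : c ∈ U) (hw : w ∉ U) (heS : e ∉ S) {i j : V}
    (hi : i ∈ U) (hj : j ∈ U) :
    XX ends (insert e S) U i j = XX ends S U i j + XX (con ends c w) S U i j :=
  cnt_del_con he (fun h => hw (h ▸ hc)) heS fun F _ => pair_con he hw F hi hj

lemma TT_con (he : ends e = s(c, w)) (hc : c ∈ U) (hw : w ∉ U) (heS : e ∉ S) :
    TT (con ends c w) S U = TT ends S (insert w U) := by
  have h1 := TT_del_con he hc hw heS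
  have h2 : TT ends (insert e S) U = TT ends S U +
      cnt ends S (fun F => Sep ends F U ∧ Free ends F U w) := cnt_sep_insert he heS hc
  have h3 : cnt ends S (fun F => Sep ends F U ∧ Free ends F U w) = TT ends S (insert w U) := by
    refine cnt_congr fun F _ _ => ⟨fun ⟨h, h'⟩ => ?_, fun h => ⟨fun i hi j hj => ?_, fun i hi hc' => ?_⟩⟩
    · intro i hi j hj hij hc'
      rcases Finset.mem_insert.1 hi with hi' | hi'
      · rcases Finset.mem_insert.1 hj with hj' | hj'
        · exact hij (hi'.trans hj'.symm)
        · rw [hi'] at hc'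
          exact h' j hj' hc'
      · rcases Finset.mem_insert.1 hj with hj' | hj'
        · rw [hj'] at hc'
          exact h' i hi' hc'.symm
        · exact h i hi' j hj' hij hc'
    · exact h i (Finset.mem_insert_of_mem hi) j (Finset.mem_insert_of_mem hj)
    · exact h w (Finset.mem_insert_self _ _) i (Finset.mem_insert_of_mem hi)
        (fun h => hw (h ▸ hi)) hc'
  linarith

lemma XX_con (he : ends e = s(c, w)) (hc : c ∈ U) (hw : w ∉ U) (heS : e ∉ S) {i j : V}
    (hi : i ∈ U) (hj : j ∈ U) (hic : i ≠ c) (hjc : j ≠ c) :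
    XX (con ends c w) S U i j = XX ends S (insert w U) i j := by
  have h1 := XX_del_con he hc hw heS hi hj
  have h2 : XX ends (insert e S) U i j = XX ends S U i j +
      cnt ends S (fun F => ¬ Conn ends F c w ∧ Pair ends (insert e F) U i j) :=
    cnt_insert he heS _
  have h3 : cnt ends S (fun F => ¬ Conn ends F c w ∧ Pair ends (insert e F) U i j) =
      XX ends S (insert w U) i j := by
    refine cnt_congr fun F _ _ => ⟨fun ⟨h4, h5⟩ => ?_, fun h => ?_⟩
    · rcases (pair_insert he hc h4 hi hj).1 h5 with ⟨⟨h6, h7, h8⟩, h9⟩ | ⟨_, _, h6⟩ | ⟨_, _, h6⟩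
      · refine ⟨h6, h7, fun k hk l hl hkl hc' => ?_⟩
        rcases Finset.mem_insert.1 hk with hk' | hk'
        · rcases Finset.mem_insert.1 hl with hl' | hl'
          · exact absurd (hk'.trans hl'.symm) hkl
          · rw [hk'] at hc'
            exact absurd hc' (h9 l hl')
        · rcases Finset.mem_insert.1 hl with hl' | hl'
          · rw [hl'] at hc'
            exact absurd hc'.symm (h9 k hk')
          · exact h8 k hk' l hl' hkl hc'
      · exact absurd h6 hjc
      · exact absurd h6 hic
    · obtain ⟨h6, h7, h8⟩ := h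
      have hwi : i ≠ w := fun h => hw (h ▸ hi)
      have hwj : j ≠ w := fun h => hw (h ▸ hj)
      have hfree : Free ends F U w := by
        intro k hk hc'
        rcases h8 w (Finset.mem_insert_self _ _) k (Finset.mem_insert_of_mem hk)
          (fun h => hw (h ▸ hk)) hc' with ⟨h9, _⟩ | ⟨h9, _⟩
        · exact hwi h9.symm
        · exact hwj h9.symm
      have h4 : ¬ Conn ends F c w := fun h => hfree c hc h.symm
      refine ⟨h4, (pair_insert he hc h4 hi hj).2 (Or.inl ⟨⟨h6, h7, fun k hk l hl => ?_⟩, hfree⟩)⟩
      exact h8 k (Finset.mem_insert_of_mem hk) l (Finset.mem_insert_of_mem hl)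
  linarith

/-- **Row sums increase** (the Loewner inequality at an indicator). -/
lemma row_sum [Fintype V] (he : ends e = s(c, w)) (hc : c ∈ U) (hw : w ∉ U) (heS : e ∉ S)
    {j : V} (hj : j ∈ U) :
    TT (con ends c w) S U * ∑ s ∈ U, XX ends S U s j ≤
      TT ends S U * ∑ s ∈ U, XX (con ends c w) S U s j := by
  have hcw : c ≠ w := fun h => hw (h ▸ hc)
  have h1 := add_edge' ends he hcw heS hc (fun x => if x = j then 1 else 0)
  rw [QQ_single ends S hj, QQ_single ends (insert e S) hj] at h1
  have h2 : ∑ s ∈ U, XX ends (insert e S) U s j =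
      ∑ s ∈ U, XX ends S U s j + ∑ s ∈ U, XX (con ends c w) S U s j := by
    rw [← Finset.sum_add_distrib]
    exact Finset.sum_congr rfl fun s hs => XX_del_con he hc hw heS hs hj
  have h3 : cnt ends (insert e S) (fun F => Sep ends F U) = TT ends S U + TT (con ends c w) S U :=
    TT_del_con he hc hw heS
  have h4 : cnt ends S (fun F => Sep ends F U) = TT ends S U := rfl
  rw [h2, h3, h4] at h1
  nlinarith

end DelCon

end Pool.Agent.Lib.MP_d90615_h4
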