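import Pool.Agent.Lib.MP_d90615_h4.Basic

/-!
Making a vertex a terminal decreases every other response.
-/

set_option autoImplicit false

namespace Pool.Agent.Lib.MP_d90615_h4

open Matrix Finset Pool.Agent.Lib.MP_d90615_co Pool.Agent.Lib.MP_d90615_h62.KT
open scoped Classical

variable {V E : Type*}

/-- the number of edges of `S` between `i` and `j` -/
noncomputable def mult (ends : E → Sym2 V) (S : Finset E) (i j : V) : ℝ :=
  ((S.filter fun f => ends f = s(i, j)).card : ℝ)

lemma mult_nonneg (ends : E → Sym2 V) (S : Finset E) (i j : V) : 0 ≤ mult ends S i j :=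
  Nat.cast_nonneg _

lemma cnt_mono_set {ends : E → Sym2 V} {S S' : Finset E} (h : S ⊆ S') (P : Finset E → Prop) :
    cnt ends S P ≤ cnt ends S' P := by
  unfold cnt
  refine Finset.sum_le_sum_of_subset_of_nonneg ?_ fun _ _ _ => ind_nonneg _
  exact Finset.filter_subset_filter _ (Finset.powerset_mono.2 h)

/-- the forests with the edge `f` -/
lemma cnt_mem {ends : E → Sym2 V} {S : Finset E} {f : E} {i j : V} (hf : ends f = s(i, j))
    (hfS : f ∈ S) (Q : Finset E → Prop) :
    cnt ends S (fun F => f ∈ F ∧ Q (F.erase f)) =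
      cnt ends (S.erase f) (fun F => ¬ Conn ends F i j ∧ Q F) := by
  have h1 := cnt_insert hf (Finset.notMem_erase f S) (fun F => f ∈ F ∧ Q (F.erase f))
  rw [Finset.insert_erase hfS] at h1
  rw [h1, cnt_false (fun F hF _ h => Finset.notMem_erase f S (hF h.1)), zero_add]
  refine cnt_congr fun F hF _ => ?_
  have h2 : f ∉ F := fun h => Finset.notMem_erase f S (hF h)
  rw [Finset.erase_insert h2]
  exact ⟨fun h => ⟨h.1, h.2.2⟩, fun h => ⟨h.1, Finset.mem_insert_self _ _, h.2⟩⟩

lemma cnt_le_sum {ends : E → Sym2 V} {S : Finset E} {P : Finset E → Prop} (M : Finset E)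
    (Q : E → Finset E → Prop)
    (h : ∀ F, F ⊆ S → Forest ends F → P F → ∃ f ∈ M, Q f F) :
    cnt ends S P ≤ ∑ f ∈ M, cnt ends S (Q f) := by
  unfold cnt
  rw [Finset.sum_comm]
  refine Finset.sum_le_sum fun F hF => ?_
  rw [Finset.mem_filter, Finset.mem_powerset] at hF
  by_cases h1 : P F
  · obtain ⟨f, hf, hQ⟩ := h F hF.1 hF.2 h1
    rw [ind_pos h1]
    have h2 := Finset.single_le_sum (f := fun f => ind (Q f F)) (fun _ _ => ind_nonneg _) hf
    simp only [ind_pos hQ] at h2
    exact h2
  · rw [ind_neg h1]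
    exact Finset.sum_nonneg fun _ _ => ind_nonneg _

lemma sum_le_cnt {ends : E → Sym2 V} {S : Finset E} {P : Finset E → Prop} (M : Finset E)
    (Q : E → Finset E → Prop)
    (h : ∀ F, F ⊆ S → Forest ends F → ∀ f ∈ M, Q f F → P F ∧ ∀ g ∈ M, Q g F → g = f) :
    ∑ f ∈ M, cnt ends S (Q f) ≤ cnt ends S P := by
  unfold cnt
  rw [Finset.sum_comm]
  refine Finset.sum_le_sum fun F hF => ?_
  rw [Finset.mem_filter, Finset.mem_powerset] at hF
  by_cases h1 : ∃ f ∈ M, Q f F
  · obtain ⟨f, hf, hQ⟩ := h1
    obtain ⟨h2, h3⟩ := h F hF.1 hF.2 f hf hQ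
    rw [ind_pos h2, Finset.sum_eq_single f, ind_pos hQ]
    · intro g hg hgf
      exact ind_neg fun h4 => hgf (h3 g hg h4)
    · intro h4
      exact absurd hf h4
  · rw [Finset.sum_eq_zero]
    · exact ind_nonneg _
    · intro f hf
      exact ind_neg fun h2 => h1 ⟨f, hf, h2⟩

lemma forest_mono {ends : E → Sym2 V} {F F' : Finset E} (h : F' ⊆ F) (hF : Forest ends F) :
    Forest ends F' := by
  intro e he u v huv hc
  refine hF e (h he) u v huv (hc.mono ?_)
  exact Finset.erase_subset_erase _ h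

/-- a forest has no loops -/
lemma forest_loop {ends : E → Sym2 V} {F : Finset E} (hF : Forest ends F) {f : E} (hf : f ∈ F)
    {i : V} (h : ends f = s(i, i)) : False :=
  hF f hf i i h (Conn.refl _ _ _)

/-- the first step of a path -/
lemma conn_head {ends : E → Sym2 V} {F : Finset E} {i j : V} (hij : i ≠ j)
    (h : Conn ends F i j) : ∃ f ∈ F, ∃ b, ends f = s(i, b) := by
  rcases Relation.ReflTransGen.cases_head h with h1 | ⟨b, ⟨f, hf, hs⟩, _⟩
  · exact absurd h1 hij
  · exact ⟨f, hf, b, hs⟩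

/-- all edges at `i` end in `U`: upper bound -/
lemma base_upper {ends : E → Sym2 V} {S : Finset E} {U : Finset V} {i j : V} (hi : i ∈ U)
    {P Q : Finset E → Prop}
    (hno : ∀ f ∈ S, ∀ w, ends f = s(i, w) → w ∈ U)
    (h : ∀ F, F ⊆ S → Forest ends F → P F → i ≠ j ∧ Conn ends F i j ∧
      (∀ k ∈ U, k ≠ i → Conn ends F i k → k = j) ∧
      ∀ f ∈ F, ends f = s(i, j) → Q (F.erase f)) :
    cnt ends S P ≤ mult ends S i j * cnt ends S Q := by
  have h1 : cnt ends S P ≤ ∑ f ∈ S.filter (fun f => ends f = s(i, j)),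
      cnt ends S (fun F => f ∈ F ∧ Q (F.erase f)) := by
    refine cnt_le_sum _ (fun f F => f ∈ F ∧ Q (F.erase f)) fun F hF hF' hP => ?_
    obtain ⟨h2, h3, h4, h5⟩ := h F hF hF' hP
    obtain ⟨f, hf, b, hs⟩ := conn_head h2 h3
    have hbU : b ∈ U := hno f (hF hf) b hs
    have hbi : b ≠ i := by
      rintro rfl
      exact forest_loop hF' hf hs
    have hbj : b = j := h4 b hbU hbi (Conn.single hf hs)
    subst hbj
    exact ⟨f, Finset.mem_filter.2 ⟨hF hf, hs⟩, hf, h5 f hf hs⟩
  refine h1.trans ?_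
  rw [mult, ← nsmul_eq_mul]
  refine Finset.sum_le_card_nsmul _ _ _ fun f hf => ?_
  rw [Finset.mem_filter] at hf
  rw [cnt_mem hf.2 hf.1]
  exact (cnt_mono fun F _ _ h => h.2).trans (cnt_mono_set (Finset.erase_subset _ _) Q)

/-- lower bound -/
lemma base_lower {ends : E → Sym2 V} {S : Finset E} {U : Finset V} {i j : V} (hi : i ∈ U)
    (hj : j ∈ U) (hij : i ≠ j) : mult ends S i j * TT ends S U ≤ XX ends S U i j := by
  have h1 : ∀ f ∈ S.filter (fun f => ends f = s(i, j)),
      cnt ends S (fun F => f ∈ F ∧ Pool.Agent.Lib.MP_d90615_h62.KT.Sep ends (F.erase f) U) =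
        TT ends S U := by
    intro f hf
    rw [Finset.mem_filter] at hf
    rw [cnt_mem hf.2 hf.1 (fun F => Pool.Agent.Lib.MP_d90615_h62.KT.Sep ends F U)]
    have h2 := cnt_insert hf.2 (Finset.notMem_erase f S)
      (fun F => Pool.Agent.Lib.MP_d90615_h62.KT.Sep ends F U)
    rw [Finset.insert_erase hf.1, cnt_false (P := fun F => ¬ Conn ends F i j ∧ _) ?_,
      add_zero] at h2
    · unfold TT
      rw [h2]
      exact cnt_congr fun F _ _ => ⟨fun h => h.2, fun h => ⟨h i hi j hj hij, h⟩⟩
    · rintro F _ _ ⟨_, h3⟩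
      exact h3 i hi j hj hij (Conn.single (Finset.mem_insert_self _ _) hf.2)
  have h2 : mult ends S i j * TT ends S U = ∑ f ∈ S.filter (fun f => ends f = s(i, j)),
      cnt ends S (fun F => f ∈ F ∧ Pool.Agent.Lib.MP_d90615_h62.KT.Sep ends (F.erase f) U) := by
    rw [Finset.sum_congr rfl h1, Finset.sum_const, nsmul_eq_mul, mult]
  rw [h2]
  refine sum_le_cnt _ (fun f F => f ∈ F ∧
    Pool.Agent.Lib.MP_d90615_h62.KT.Sep ends (F.erase f) U) fun F _ hF f hf hQ => ?_
  rw [Finset.mem_filter] at hf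
  obtain ⟨hfF, hsep⟩ := hQ
  refine ⟨⟨hij, Conn.single hfF hf.2, fun k hk l hl hkl hc => ?_⟩, fun g hg hQ => ?_⟩
  · rw [← Finset.insert_erase hfF] at hc
    rcases (conn_insert hf.2 k l).1 hc with h3 | ⟨h3, h4⟩ | ⟨h3, h4⟩
    · exact absurd h3 (hsep k hk l hl hkl)
    · left
      constructor
      · by_contra h5
        exact hsep k hk i hi h5 h3
      · by_contra h5
        exact hsep l hl j hj h5 h4.symm
    · right
      constructor
      · by_contra h5
        exact hsep k hk j hj h5 h3
      · by_contra h5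
        exact hsep l hl i hi h5 h4.symm
  · by_contra hgf
    rw [Finset.mem_filter] at hg
    exact hsep i hi j hj hij (Conn.single (Finset.mem_erase.2 ⟨hgf, hQ.1⟩) hg.2)

/-- the statement -/
def Blk (ends : E → Sym2 V) (S : Finset E) (U : Finset V) (v i j : V) : Prop :=
  XX ends S (insert v U) i j * TT ends S U ≤ XX ends S U i j * TT ends S (insert v U)

lemma blk_base {ends : E → Sym2 V} {S : Finset E} {U : Finset V} {v i j : V}
    (hi : i ∈ U) (hj : j ∈ U) (hij : i ≠ j)
    (hno : ∀ f ∈ S, ∀ w, ends f = s(i, w) → w ∈ insert v U) : Blk ends S U v i j := by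
  have h1 : XX ends S (insert v U) i j ≤ mult ends S i j * TT ends S (insert v U) := by
    refine base_upper (Finset.mem_insert_of_mem hi) hno fun F _ hF hP => ?_
    obtain ⟨h2, h3, h4⟩ := hP
    refine ⟨h2, h3, fun k hk hki hc => ?_, fun f hf hs => ?_⟩
    · rcases h4 i (Finset.mem_insert_of_mem hi) k hk hki.symm hc with ⟨_, h5⟩ | ⟨h5, _⟩
      · exact h5
      · exact absurd h5 h2
    · intro k hk l hl hkl hc
      have h5 := hF f hf i j hs
      rcases h4 k hk l hl hkl (hc.mono (Finset.erase_subset _ _)) with ⟨rfl, rfl⟩ | ⟨rfl, rfl⟩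
      · exact h5 hc
      · exact h5 hc.symm
  have h2 := base_lower (ends := ends) (S := S) hi hj hij
  unfold Blk
  have h3 := (TT_pos ends S U).le
  have h4 := (TT_pos ends S (insert v U)).le
  calc XX ends S (insert v U) i j * TT ends S U
      ≤ mult ends S i j * TT ends S (insert v U) * TT ends S U :=
        mul_le_mul_of_nonneg_right h1 h3
    _ = mult ends S i j * TT ends S U * TT ends S (insert v U) := by ring
    _ ≤ _ := mul_le_mul_of_nonneg_right h2 h4

/-- the response at the contracted terminal increases, given the blocking inequality -/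
lemma response_up [Fintype V] {ends : E → Sym2 V} {S : Finset E} {e : E} {c w : V}
    {U : Finset V} (he : ends e = s(c, w)) (hc : c ∈ U) (hw : w ∉ U) (heS : e ∉ S)
    {j : V} (hj : j ∈ U) (hcj : c ≠ j)
    (hB : ∀ s ∈ U, s ≠ j → Blk ends S U w s j) :
    TT (con ends c w) S U * XX ends S U c j ≤ TT ends S U * XX (con ends c w) S U c j := by
  have h1 := row_sum he hc hw heS hj
  rw [← Finset.add_sum_erase U _ hc, ← Finset.add_sum_erase U _ hc] at h1
  have h2 : TT ends S U * ∑ s ∈ U.erase c, XX (con ends c w) S U s j ≤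
      TT (con ends c w) S U * ∑ s ∈ U.erase c, XX ends S U s j := by
    rw [Finset.mul_sum, Finset.mul_sum]
    refine Finset.sum_le_sum fun s hs => ?_
    rw [Finset.mem_erase] at hs
    by_cases hsj : s = j
    · subst hsj
      rw [XX_self, XX_self]
      simp
    · rw [XX_con he hc hw heS hs.2 hj hs.1 hcj.symm, TT_con he hc hw heS]
      have h3 := hB s hs.2 hsj
      unfold Blk at h3
      linarith
  linarith

lemma blk_algebra {T0 T1 T0' T1' X0 X1 X0' X1' : ℝ} (h0' : 0 < T0') (h1' : 0 < T1')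
    (hI0 : X0' * T0 ≤ X0 * T0') (hI1 : X1' * T1 ≤ X1 * T1') (hβ : T1' * T0 ≤ T0' * T1)
    (hα : T1' * X0' ≤ T0' * X1') :
    (X0' + X1') * (T0 + T1) ≤ (X0 + X1) * (T0' + T1') := by
  have h1 : 0 ≤ (X0 * T0' - X0' * T0) * (T1' * T1') := by
    have : 0 ≤ X0 * T0' - X0' * T0 := by linarith
    positivity
  have h2 : 0 ≤ (X1 * T1' - X1' * T1) * (T0' * T0') := by
    have : 0 ≤ X1 * T1' - X1' * T1 := by linarith
    positivity
  have h3 : 0 ≤ (T0' * T1 - T1' * T0) * (T0' * X1' - T1' * X0') :=
    mul_nonneg (by linarith) (by linarith)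
  have h4 : 0 ≤ (X0 * T0' - X0' * T0) * (T0' * T1') := by
    have : 0 ≤ X0 * T0' - X0' * T0 := by linarith
    positivity
  have h5 : 0 ≤ (X1 * T1' - X1' * T1) * (T0' * T1') := by
    have : 0 ≤ X1 * T1' - X1' * T1 := by linarith
    positivity
  have h6 : 0 ≤ ((X0 + X1) * (T0' + T1') - (X0' + X1') * (T0 + T1)) * (T0' * T1') := by
    nlinarith
  have h7 := nonneg_of_mul_nonneg_left h6 (mul_pos h0' h1')
  linarith

/-- **Making a vertex a terminal decreases the other responses.** -/
theorem block [Fintype V] : ∀ (n : ℕ) (ends : E → Sym2 V) (S : Finset E), S.card = n →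
    ∀ (U : Finset V) (v i j : V), v ∉ U → i ∈ U → j ∈ U → i ≠ j → Blk ends S U v i j := by
  intro n
  induction n using Nat.strong_induction_on with
  | _ n ih =>
    intro ends S hS U v i j hv hi hj hij
    by_cases hex : ∃ e ∈ S, ∃ w, ends e = s(i, w) ∧ w ∉ insert v U
    · obtain ⟨e, heS, w, he, hw⟩ := hex
      have hwU : w ∉ U := fun h => hw (Finset.mem_insert_of_mem h)
      have hi' : i ∈ insert v U := Finset.mem_insert_of_mem hi
      have hj' : j ∈ insert v U := Finset.mem_insert_of_mem hj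
      obtain ⟨S', hS', heS'⟩ : ∃ S', S = insert e S' ∧ e ∉ S' :=
        ⟨S.erase e, (Finset.insert_erase heS).symm, Finset.notMem_erase _ _⟩
      have hn : S'.card < n := by
        rw [hS', Finset.card_insert_of_notMem heS'] at hS
        omega
      subst hS'
      have hI := fun (ends' : E → Sym2 V) => ih S'.card hn ends' S' rfl
      have hI0 := hI ends U v i j hv hi hj hij
      have hI1 := hI (con ends i w) U v i j hv hi hj hij
      have hα := response_up he hi' hw heS' hj' hij
        (fun s hs hsj => hI ends (insert v U) w s j hw hs hj' hsj)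
      have hβ0 := row_sum he hi' hw heS' (Finset.mem_insert_self v U)
      have h1 := TT_split ends S' hv
      have h2 := TT_split (con ends i w) S' hv
      have hβ : TT (con ends i w) S' (insert v U) * TT ends S' U ≤
          TT ends S' (insert v U) * TT (con ends i w) S' U := by
        rw [h1, h2]
        nlinarith
      unfold Blk at *
      rw [TT_del_con he hi hwU heS', TT_del_con he hi' hw heS',
        XX_del_con he hi hwU heS' hi hj, XX_del_con he hi' hw heS' hi' hj']
      exact blk_algebra (TT_pos _ _ _) (TT_pos _ _ _) hI0 hI1 hβ hα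
    · push Not at hex
      exact blk_base hi hj hij fun f hf w hw => hex f hf w hw

/-- the response at a contracted terminal increases -/
theorem up [Fintype V] {ends : E → Sym2 V} {S : Finset E} {e : E} {c w : V}
    {U : Finset V} (he : ends e = s(c, w)) (hc : c ∈ U) (hw : w ∉ U) (heS : e ∉ S)
    {j : V} (hj : j ∈ U) (hcj : c ≠ j) :
    TT (con ends c w) S U * XX ends S U c j ≤ TT ends S U * XX (con ends c w) S U c j :=
  response_up he hc hw heS hj hcj fun s hs hsj => block _ ends S rfl U w s j hw hs hj hsj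

/-- the other responses decrease -/
theorem down [Fintype V] {ends : E → Sym2 V} {S : Finset E} {e : E} {c w : V}
    {U : Finset V} (he : ends e = s(c, w)) (hc : c ∈ U) (hw : w ∉ U) (heS : e ∉ S)
    {i j : V} (hi : i ∈ U) (hj : j ∈ U) (hij : i ≠ j) (hic : i ≠ c) (hjc : j ≠ c) :
    TT ends S U * XX (con ends c w) S U i j ≤ TT (con ends c w) S U * XX ends S U i j := by
  have h := block _ ends S rfl U w i j hw hi hj hij
  unfold Blk at h
  rw [XX_con he hc hw heS hi hj hic hjc, TT_con he hc hw heS]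
  linarith

end Pool.Agent.Lib.MP_d90615_h4
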