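import Pool.Agent.Lib.MP_d90615_h4.Block

/-!
Two disjoint pairs of terminals: conditional negative correlation of the connections.
-/

set_option autoImplicit false

namespace Pool.Agent.Lib.MP_d90615_h4

open Matrix Finset Pool.Agent.Lib.MP_d90615_co Pool.Agent.Lib.MP_d90615_h62.KT
open scoped Classical

variable {V E : Type*}

/-- `a`, `b` are joined, `c`, `d` are joined, and nothing else in `U` -/
def Pair2 (ends : E → Sym2 V) (F : Finset E) (U : Finset V) (a b c d : V) : Prop :=
  Conn ends F a b ∧ Conn ends F c d ∧ ∀ k ∈ U, ∀ l ∈ U, k ≠ l → Conn ends F k l →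
    ((k = a ∧ l = b) ∨ (k = b ∧ l = a)) ∨ ((k = c ∧ l = d) ∨ (k = d ∧ l = c))

/-- the number of these forests -/
noncomputable def YY (ends : E → Sym2 V) (S : Finset E) (U : Finset V) (a b c d : V) : ℝ :=
  cnt ends S (fun F => Pair2 ends F U a b c d)

section

variable {ends : E → Sym2 V} {S : Finset E} {U : Finset V} {a b c d : V}

lemma YY_del_con {e : E} {w : V} (he : ends e = s(a, w)) (hw : w ∉ U) (heS : e ∉ S)
    (ha : a ∈ U) (hb : b ∈ U) (hc : c ∈ U) (hd : d ∈ U) :
    YY ends (insert e S) U a b c d = YY ends S U a b c d + YY (con ends a w) S U a b c d := by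
  refine cnt_del_con he (fun h => hw (h ▸ ha)) heS fun F _ => ?_
  have hcc : ∀ i ∈ U, ∀ j ∈ U, (Conn ends (insert e F) i j ↔ Conn (con ends a w) F i j) := by
    intro i hi j hj
    have hiw : i ≠ w := fun h => hw (h ▸ hi)
    have hjw : j ≠ w := fun h => hw (h ▸ hj)
    rw [← conn_con he, gl_of_ne hiw, gl_of_ne hjw]
  unfold Pair2
  rw [hcc a ha b hb, hcc c hc d hd]
  refine and_congr_right fun _ => and_congr_right fun _ =>
    forall₂_congr fun k hk => forall₂_congr fun l hl => ?_
  rw [hcc k hk l hl]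

lemma cond_base (ha : a ∈ U) (hb : b ∈ U) (hc : c ∈ U) (hd : d ∈ U) (hab : a ≠ b)
    (hac : a ≠ c) (had : a ≠ d) (hbc : b ≠ c) (hbd : b ≠ d) (hcd : c ≠ d)
    (hno : ∀ f ∈ S, ∀ w, ends f = s(a, w) → w ∈ U) :
    TT ends S U * YY ends S U a b c d ≤ XX ends S U a b * XX ends S U c d := by
  have h1 : YY ends S U a b c d ≤ mult ends S a b * XX ends S U c d := by
    refine base_upper ha hno fun F _ hF hP => ?_
    obtain ⟨h2, h3, h4⟩ := hP
    have hac' : ¬ Conn ends F a c := by
      intro h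
      rcases h4 a ha c hc hac h with (⟨_, h5⟩ | ⟨h5, _⟩) | (⟨h5, _⟩ | ⟨h5, _⟩)
      · exact hbc h5.symm
      · exact hab h5
      · exact hac h5
      · exact had h5
    refine ⟨hab, h2, fun k hk hka hc' => ?_, fun f hf hs => ?_⟩
    · rcases h4 a ha k hk hka.symm hc' with (⟨_, h5⟩ | ⟨h5, _⟩) | (⟨h5, _⟩ | ⟨h5, _⟩)
      · exact h5
      · exact absurd h5 hab
      · exact absurd h5 hac
      · exact absurd h5 had
    · have h5 := hF f hf a b hs
      refine ⟨hcd, ?_, fun k hk l hl hkl hc' => ?_⟩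
      · rw [← Finset.insert_erase hf] at h3
        rcases (conn_insert hs c d).1 h3 with h6 | ⟨h6, _⟩ | ⟨_, h6⟩
        · exact h6
        · exact absurd (h6.mono (Finset.erase_subset _ _)).symm hac'
        · exfalso
          have h7 := h4 a ha d hd had (h6.mono (Finset.erase_subset _ _))
          rcases h7 with (⟨_, h8⟩ | ⟨h8, _⟩) | (⟨h8, _⟩ | ⟨h8, _⟩)
          · exact hbd h8.symm
          · exact hab h8
          · exact hac h8
          · exact had h8
      · rcases h4 k hk l hl hkl (hc'.mono (Finset.erase_subset _ _)) with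
          (⟨rfl, rfl⟩ | ⟨rfl, rfl⟩) | h6
        · exact absurd hc' h5
        · exact absurd hc'.symm h5
        · exact h6
  have h2 := base_lower (ends := ends) (S := S) ha hb hab
  have h3 := (TT_pos ends S U).le
  have h4 := XX_nonneg ends S U c d
  calc TT ends S U * YY ends S U a b c d
      ≤ TT ends S U * (mult ends S a b * XX ends S U c d) :=
        mul_le_mul_of_nonneg_left h1 h3
    _ = mult ends S a b * TT ends S U * XX ends S U c d := by ring
    _ ≤ _ := mul_le_mul_of_nonneg_right h2 h4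

lemma cond_algebra {T0 T1 Y0 Y1 X0 X1 Z0 Z1 : ℝ} (hT0 : 0 < T0) (hT1 : 0 < T1)
    (h0 : T0 * Y0 ≤ X0 * Z0) (h1 : T1 * Y1 ≤ X1 * Z1) (hX : T1 * X0 ≤ T0 * X1)
    (hZ : T0 * Z1 ≤ T1 * Z0) :
    (T0 + T1) * (Y0 + Y1) ≤ (X0 + X1) * (Z0 + Z1) := by
  have h2 : 0 ≤ (T0 * X1 - T1 * X0) * (T1 * Z0 - T0 * Z1) :=
    mul_nonneg (by linarith) (by linarith)
  have h3 : 0 ≤ (X0 * Z0 - T0 * Y0) * (T1 * (T0 + T1)) := by
    have : 0 ≤ X0 * Z0 - T0 * Y0 := by linarith
    positivity
  have h4 : 0 ≤ (X1 * Z1 - T1 * Y1) * (T0 * (T0 + T1)) := by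
    have : 0 ≤ X1 * Z1 - T1 * Y1 := by linarith
    positivity
  have h5 : 0 ≤ ((X0 + X1) * (Z0 + Z1) - (T0 + T1) * (Y0 + Y1)) * (T0 * T1) := by
    nlinarith
  have h6 := nonneg_of_mul_nonneg_left h5 (mul_pos hT0 hT1)
  linarith

end

/-- **Conditional negative correlation of two connections.** -/
theorem cond [Fintype V] : ∀ (n : ℕ) (ends : E → Sym2 V) (S : Finset E), S.card = n →
    ∀ (U : Finset V) (a b c d : V), a ∈ U → b ∈ U → c ∈ U → d ∈ U → a ≠ b → a ≠ c → a ≠ d →
      b ≠ c → b ≠ d → c ≠ d →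
      TT ends S U * YY ends S U a b c d ≤ XX ends S U a b * XX ends S U c d := by
  intro n
  induction n using Nat.strong_induction_on with
  | _ n ih =>
    intro ends S hS U a b c d ha hb hc hd hab hac had hbc hbd hcd
    by_cases hex : ∃ e ∈ S, ∃ w, ends e = s(a, w) ∧ w ∉ U
    · obtain ⟨e, heS, w, he, hw⟩ := hex
      obtain ⟨S', hS', heS'⟩ : ∃ S', S = insert e S' ∧ e ∉ S' :=
        ⟨S.erase e, (Finset.insert_erase heS).symm, Finset.notMem_erase _ _⟩
      have hn : S'.card < n := by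
        rw [hS', Finset.card_insert_of_notMem heS'] at hS
        omega
      subst hS'
      have hI := fun (ends' : E → Sym2 V) =>
        ih S'.card hn ends' S' rfl U a b c d ha hb hc hd hab hac had hbc hbd hcd
      rw [TT_del_con he ha hw heS', YY_del_con he hw heS' ha hb hc hd,
        XX_del_con he ha hw heS' ha hb, XX_del_con he ha hw heS' hc hd]
      exact cond_algebra (TT_pos _ _ _) (TT_pos _ _ _) (hI ends) (hI _)
        (up he ha hw heS' hb hab) (down he ha hw heS' hc hd hcd hac.symm had.symm)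
    · push Not at hex
      exact cond_base ha hb hc hd hab hac had hbc hbd hcd fun f hf w hw => hex f hf w hw

end Pool.Agent.Lib.MP_d90615_h4
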