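import Pool.Agent.Lib.MP_d90615_h4.Cond

/-!
The inequalities in terms of numbers of forests with given edges.
-/

set_option autoImplicit false

namespace Pool.Agent.Lib.MP_d90615_h4

open Matrix Finset Pool.Agent.Lib.MP_d90615_co Pool.Agent.Lib.MP_d90615_h62.KT
open scoped Classical

variable {V E : Type*}

/-- no two vertices of `U` are joined, except possibly the pairs in `Q` -/
def Apart (ends : E → Sym2 V) (F : Finset E) (U : Finset V) (Q : Set (Sym2 V)) : Prop :=
  ∀ x ∈ U, ∀ y ∈ U, x ≠ y → Conn ends F x y → s(x, y) ∈ Q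

section

variable {ends : E → Sym2 V} {F : Finset E} {U : Finset V} {a b c d : V}

lemma apart_empty : Apart ends F U ∅ ↔ Pool.Agent.Lib.MP_d90615_h62.KT.Sep ends F U := by
  unfold Apart Pool.Agent.Lib.MP_d90615_h62.KT.Sep
  simp

lemma mem_one {x y : V} : s(x, y) ∈ ({s(a, b)} : Set (Sym2 V)) ↔
    (x = a ∧ y = b) ∨ (x = b ∧ y = a) := by
  rw [Set.mem_singleton_iff, Sym2.eq_iff]

lemma mem_two {x y : V} : s(x, y) ∈ ({s(a, b), s(c, d)} : Set (Sym2 V)) ↔
    ((x = a ∧ y = b) ∨ (x = b ∧ y = a)) ∨ ((x = c ∧ y = d) ∨ (x = d ∧ y = c)) := by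
  rw [Set.mem_insert_iff, Set.mem_singleton_iff, Sym2.eq_iff, Sym2.eq_iff]

lemma pair_iff_apart (hab : a ≠ b) :
    Pair ends F U a b ↔ Conn ends F a b ∧ Apart ends F U {s(a, b)} := by
  unfold Pair Apart
  simp only [mem_one]
  exact ⟨fun h => h.2, fun h => ⟨hab, h⟩⟩

lemma pair2_iff_apart : Pair2 ends F U a b c d ↔
    Conn ends F a b ∧ Conn ends F c d ∧ Apart ends F U {s(a, b), s(c, d)} := by
  unfold Pair2 Apart
  simp only [mem_two]

lemma sep_iff_one (ha : a ∈ U) (hb : b ∈ U) (hab : a ≠ b) :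
    Pool.Agent.Lib.MP_d90615_h62.KT.Sep ends F U ↔
      ¬ Conn ends F a b ∧ Apart ends F U {s(a, b)} := by
  constructor
  · intro h
    exact ⟨h a ha b hb hab, fun x hx y hy hxy hc => absurd hc (h x hx y hy hxy)⟩
  · rintro ⟨h1, h⟩ x hx y hy hxy hc
    rcases mem_one.1 (h x hx y hy hxy hc) with ⟨rfl, rfl⟩ | ⟨rfl, rfl⟩
    · exact h1 hc
    · exact h1 hc.symm

lemma one_iff_two (hc : c ∈ U) (hd : d ∈ U) (hcd : c ≠ d) (hac : a ≠ c) (had : a ≠ d) :
    Apart ends F U {s(a, b)} ↔ ¬ Conn ends F c d ∧ Apart ends F U {s(a, b), s(c, d)} := by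
  constructor
  · intro h
    refine ⟨fun hc' => ?_, fun x hx y hy hxy hc' => ?_⟩
    · rcases mem_one.1 (h c hc d hd hcd hc') with ⟨h1, _⟩ | ⟨_, h1⟩
      · exact hac h1.symm
      · exact had h1.symm
    · exact mem_two.2 (Or.inl (mem_one.1 (h x hx y hy hxy hc')))
  · rintro ⟨h1, h⟩ x hx y hy hxy hc'
    rcases mem_two.1 (h x hx y hy hxy hc') with h2 | ⟨rfl, rfl⟩ | ⟨rfl, rfl⟩
    · exact mem_one.2 h2
    · exact absurd hc' h1
    · exact absurd hc'.symm h1

lemma apart_swap : Apart ends F U {s(a, b), s(c, d)} ↔ Apart ends F U {s(c, d), s(a, b)} := by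
  rw [Set.pair_comm]

lemma apart_mono {F' : Finset E} (hF : F ⊆ F') {Q : Set (Sym2 V)} (h : Apart ends F' U Q) :
    Apart ends F U Q := fun x hx y hy hxy hc => h x hx y hy hxy (hc.mono hF)

/-- an allowed edge keeps the others apart -/
lemma apart_insert {e : E} (he : ends e = s(a, b)) (ha : a ∈ U) (hb : b ∈ U)
    {Q : Set (Sym2 V)} (hQ : s(a, b) ∈ Q) (hQa : ∀ k, s(k, a) ∈ Q → k = b)
    (hQb : ∀ k, s(k, b) ∈ Q → k = a) (h : ¬ Conn ends F a b) :
    Apart ends (insert e F) U Q ↔ Apart ends F U Q := by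
  constructor
  · exact apart_mono (Finset.subset_insert _ _)
  · intro h1 x hx y hy hxy hc
    have key1 : ∀ k ∈ U, Conn ends F k a → k = a := by
      intro k hk hk'
      by_contra h2
      have h3 := hQa k (h1 k hk a ha h2 hk')
      subst h3
      exact h hk'.symm
    have key2 : ∀ k ∈ U, Conn ends F k b → k = b := by
      intro k hk hk'
      by_contra h2
      have h3 := hQb k (h1 k hk b hb h2 hk')
      subst h3
      exact h hk'
    rcases (conn_insert he x y).1 hc with h2 | ⟨h2, h3⟩ | ⟨h2, h3⟩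
    · exact h1 x hx y hy hxy h2
    · rw [key1 x hx h2, key2 y hy h3.symm]
      exact hQ
    · rw [key2 x hx h2, key1 y hy h3.symm, Sym2.eq_swap]
      exact hQ

/-- an allowed edge does not change another connection -/
lemma conn_insert_apart {e : E} (he : ends e = s(a, b)) (ha : a ∈ U) (hb : b ∈ U)
    (hc : c ∈ U) (hac : a ≠ c) (hbc : b ≠ c)
    {Q : Set (Sym2 V)} (hQa : ∀ k, s(k, a) ∈ Q → k = b) (hQb : ∀ k, s(k, b) ∈ Q → k = a)
    (h : Apart ends F U Q) : Conn ends (insert e F) c d ↔ Conn ends F c d := by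
  rw [conn_insert he]
  constructor
  · rintro (h1 | ⟨h1, _⟩ | ⟨h1, _⟩)
    · exact h1
    · exact absurd (hQa c (h c hc a ha hac.symm h1)).symm hbc
    · exact absurd (hQb c (h c hc b hb hbc.symm h1)).symm hac
  · exact Or.inl

end

section

variable {ends : E → Sym2 V} {U : Finset V} {a b c d : V}

/-- splitting by a property -/
lemma cnt_split (S : Finset E) (P R : Finset E → Prop) :
    cnt ends S P = cnt ends S (fun F => R F ∧ P F) + cnt ends S (fun F => ¬ R F ∧ P F) := by
  rw [← cnt_or]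
  · refine cnt_congr fun F _ _ => ⟨fun h => ?_, fun h => ?_⟩
    · by_cases h1 : R F
      · exact Or.inl ⟨h1, h⟩
      · exact Or.inr ⟨h1, h⟩
    · rcases h with h | h
      · exact h.2
      · exact h.2
  · rintro F _ _ ⟨h1, _⟩ ⟨h2, _⟩
    exact h2 h1

/-- forests with or without an edge -/
lemma cnt_edge {S : Finset E} {f : E} (hf : f ∉ S) (P : Finset E → Prop) :
    cnt ends (insert f S) P = cnt ends S P + cnt ends (insert f S) (fun F => f ∈ F ∧ P F) := by
  obtain ⟨i, j, hs⟩ : ∃ i j, ends f = s(i, j) := by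
    induction ends f using Sym2.ind with
    | _ x y => exact ⟨x, y, rfl⟩
  rw [cnt_insert hs hf, cnt_insert hs hf (fun F => f ∈ F ∧ P F)]
  congr 1
  rw [cnt_false (P := fun F => f ∈ F ∧ P F) (fun F hF _ h => hf (hF h.1)), zero_add]
  refine cnt_congr fun F _ _ => ⟨fun h => ⟨h.1, Finset.mem_insert_self _ _, h.2⟩,
    fun h => ⟨h.1, h.2.2⟩⟩

lemma c_conn_one (S : Finset E) (hab : a ≠ b) :
    cnt ends S (fun F => Conn ends F a b ∧ Apart ends F U {s(a, b)}) = XX ends S U a b :=
  cnt_congr fun _ _ _ => (pair_iff_apart hab).symm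

lemma c_one (S : Finset E) (ha : a ∈ U) (hb : b ∈ U) (hab : a ≠ b) :
    cnt ends S (fun F => Apart ends F U {s(a, b)}) = TT ends S U + XX ends S U a b := by
  rw [cnt_split S _ (fun F => Conn ends F a b), c_conn_one S hab, add_comm]
  congr 1
  exact cnt_congr fun _ _ _ => (sep_iff_one ha hb hab).symm

variable (ha : a ∈ U) (hb : b ∈ U) (hc : c ∈ U) (hd : d ∈ U) (hab : a ≠ b)
  (hac : a ≠ c) (had : a ≠ d) (hbc : b ≠ c) (hbd : b ≠ d) (hcd : c ≠ d)

include hab hc hd hcd hac had in
lemma c_conn_two (S : Finset E) :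
    cnt ends S (fun F => Conn ends F a b ∧ Apart ends F U {s(a, b), s(c, d)}) =
      XX ends S U a b + YY ends S U a b c d := by
  rw [cnt_split S _ (fun F => Conn ends F c d), add_comm]
  congr 1
  · refine cnt_congr fun F _ _ => ?_
    rw [pair_iff_apart hab, one_iff_two hc hd hcd hac had]
    exact ⟨fun ⟨h1, h2, h3⟩ => ⟨h2, h1, h3⟩, fun ⟨h1, h2, h3⟩ => ⟨h2, h1, h3⟩⟩
  · refine cnt_congr fun F _ _ => ?_
    rw [pair2_iff_apart]
    exact ⟨fun ⟨h1, h2, h3⟩ => ⟨h2, h1, h3⟩, fun ⟨h1, h2, h3⟩ => ⟨h2, h1, h3⟩⟩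

include ha hb hab hc hd hcd hac had hbc hbd in
lemma c_two (S : Finset E) :
    cnt ends S (fun F => Apart ends F U {s(a, b), s(c, d)}) =
      TT ends S U + XX ends S U a b + XX ends S U c d + YY ends S U a b c d := by
  rw [cnt_split S _ (fun F => Conn ends F a b), c_conn_two hc hd hab hac had hcd]
  have h1 : cnt ends S (fun F => ¬ Conn ends F a b ∧ Apart ends F U {s(a, b), s(c, d)}) =
      cnt ends S (fun F => Apart ends F U {s(c, d)}) := by
    refine cnt_congr fun F _ _ => ?_
    rw [one_iff_two (a := c) (b := d) ha hb hab hac.symm hbc.symm, apart_swap]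
  rw [h1, c_one S hc hd hcd]
  ring

include ha hb hab hc hd hcd hac had hbc hbd in
/-- **Conditional negative correlation of two connections.** -/
theorem conn_conn [Fintype V] (S : Finset E) :
    cnt ends S (fun F => Conn ends F a b ∧ Conn ends F c d ∧
        Apart ends F U {s(a, b), s(c, d)}) *
      cnt ends S (fun F => Apart ends F U {s(a, b), s(c, d)}) ≤
    cnt ends S (fun F => Conn ends F a b ∧ Apart ends F U {s(a, b), s(c, d)}) *
      cnt ends S (fun F => Conn ends F c d ∧ Apart ends F U {s(a, b), s(c, d)}) := by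
  have h1 : cnt ends S (fun F => Conn ends F a b ∧ Conn ends F c d ∧
      Apart ends F U {s(a, b), s(c, d)}) = YY ends S U a b c d :=
    cnt_congr fun _ _ _ => pair2_iff_apart.symm
  have h2 : cnt ends S (fun F => Conn ends F c d ∧ Apart ends F U {s(a, b), s(c, d)}) =
      XX ends S U c d + YY ends S U a b c d := by
    rw [cnt_congr (P' := fun F => Conn ends F c d ∧ Apart ends F U {s(c, d), s(a, b)})
      (fun F _ _ => by rw [apart_swap]), c_conn_two ha hb hcd hac.symm hbc.symm hab]
    congr 1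
    refine cnt_congr fun F _ _ => ?_
    rw [pair2_iff_apart, pair2_iff_apart, apart_swap]
    exact ⟨fun ⟨h1, h2, h3⟩ => ⟨h2, h1, h3⟩, fun ⟨h1, h2, h3⟩ => ⟨h2, h1, h3⟩⟩
  rw [h1, h2, c_two ha hb hc hd hab hac had hbc hbd hcd, c_conn_two hc hd hab hac had hcd]
  have h3 := cond _ ends S rfl U a b c d ha hb hc hd hab hac had hbc hbd hcd
  nlinarith

include ha hb hab hc hd hcd hac had hbc hbd in
/-- **Conditional negative correlation of two edges.** -/
theorem edge_edge [Fintype V] {S : Finset E} {e f : E} (he : ends e = s(a, b))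
    (hf : ends f = s(c, d)) (heS : e ∉ insert f S) (hfS : f ∉ S) :
    cnt ends (insert e (insert f S)) (fun F => e ∈ F ∧ f ∈ F ∧
        Apart ends F U {s(a, b), s(c, d)}) *
      cnt ends (insert e (insert f S)) (fun F => Apart ends F U {s(a, b), s(c, d)}) ≤
    cnt ends (insert e (insert f S)) (fun F => e ∈ F ∧ Apart ends F U {s(a, b), s(c, d)}) *
      cnt ends (insert e (insert f S)) (fun F => f ∈ F ∧
        Apart ends F U {s(a, b), s(c, d)}) := by
  set Q : Set (Sym2 V) := {s(a, b), s(c, d)} with hQ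
  have hef : e ≠ f := fun h => heS (h ▸ Finset.mem_insert_self _ _)
  have heS0 : e ∉ S := fun h => heS (Finset.mem_insert_of_mem h)
  have q1 : ∀ k, s(k, a) ∈ Q → k = b := by
    intro k hk
    rcases mem_two.1 hk with (⟨_, h⟩ | ⟨h, _⟩) | (⟨_, h⟩ | ⟨_, h⟩)
    · exact absurd h hab
    · exact h
    · exact absurd h had
    · exact absurd h hac
  have q2 : ∀ k, s(k, b) ∈ Q → k = a := by
    intro k hk
    rcases mem_two.1 hk with (⟨h, _⟩ | ⟨_, h⟩) | (⟨_, h⟩ | ⟨_, h⟩)
    · exact h
    · exact absurd h hab.symm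
    · exact absurd h hbd
    · exact absurd h hbc
  have q3 : ∀ k, s(k, c) ∈ Q → k = d := by
    intro k hk
    rcases mem_two.1 hk with (⟨_, h⟩ | ⟨_, h⟩) | (⟨_, h⟩ | ⟨h, _⟩)
    · exact absurd h hbc.symm
    · exact absurd h hac.symm
    · exact absurd h hcd
    · exact h
  have q4 : ∀ k, s(k, d) ∈ Q → k = c := by
    intro k hk
    rcases mem_two.1 hk with (⟨_, h⟩ | ⟨_, h⟩) | (⟨h, _⟩ | ⟨_, h⟩)
    · exact absurd h hbd.symm
    · exact absurd h had.symm
    · exact h
    · exact absurd h hcd.symm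
  have hQ1 : s(a, b) ∈ Q := mem_two.2 (Or.inl (Or.inl ⟨rfl, rfl⟩))
  have hQ2 : s(c, d) ∈ Q := mem_two.2 (Or.inr (Or.inl ⟨rfl, rfl⟩))
  -- counts over `S`
  have n0 : cnt ends S (fun F => Apart ends F U Q) =
      TT ends S U + XX ends S U a b + XX ends S U c d + YY ends S U a b c d :=
    c_two ha hb hc hd hab hac had hbc hbd hcd S
  have n1 : cnt ends S (fun F => ¬ Conn ends F a b ∧ Apart ends F U Q) =
      TT ends S U + XX ends S U c d := by
    rw [← c_one S hc hd hcd]
    refine cnt_congr fun F _ _ => ?_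
    rw [one_iff_two (a := c) (b := d) ha hb hab hac.symm hbc.symm, hQ, apart_swap]
  have n2 : cnt ends S (fun F => ¬ Conn ends F c d ∧ Apart ends F U Q) =
      TT ends S U + XX ends S U a b := by
    rw [← c_one S ha hb hab]
    refine cnt_congr fun F _ _ => ?_
    rw [one_iff_two (a := a) (b := b) hc hd hcd hac had]
  have n3 : cnt ends S (fun F => ¬ Conn ends F c d ∧ ¬ Conn ends F a b ∧ Apart ends F U Q) =
      TT ends S U := by
    refine cnt_congr fun F _ _ => ?_
    rw [sep_iff_one ha hb hab, one_iff_two (a := a) (b := b) hc hd hcd hac had]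
    exact ⟨fun ⟨h1, h2, h3⟩ => ⟨h2, h1, h3⟩, fun ⟨h1, h2, h3⟩ => ⟨h2, h1, h3⟩⟩
  -- the effect of `f`
  have m1 : ∀ F : Finset E, ¬ Conn ends F c d → (Apart ends (insert f F) U Q ↔
      Apart ends F U Q) := fun F h => apart_insert hf hc hd hQ2 q3 q4 h
  have m2 : ∀ F : Finset E, ¬ Conn ends F a b → (Apart ends (insert e F) U Q ↔
      Apart ends F U Q) := fun F h => apart_insert he ha hb hQ1 q1 q2 h
  have m3 : ∀ F : Finset E, Apart ends F U Q → (Conn ends (insert f F) a b ↔
      Conn ends F a b) := fun F h =>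
    conn_insert_apart hf hc hd ha hac.symm had.symm q3 q4 h
  have k1 : cnt ends (insert f S) (fun F => Apart ends F U Q) =
      cnt ends S (fun F => Apart ends F U Q) +
        cnt ends S (fun F => ¬ Conn ends F c d ∧ Apart ends F U Q) := by
    rw [cnt_insert hf hfS]
    congr 1
    exact cnt_congr fun F _ _ => and_congr_right fun h => m1 F h
  have k2 : cnt ends (insert f S) (fun F => ¬ Conn ends F a b ∧ Apart ends F U Q) =
      cnt ends S (fun F => ¬ Conn ends F a b ∧ Apart ends F U Q) +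
        cnt ends S (fun F => ¬ Conn ends F c d ∧ ¬ Conn ends F a b ∧ Apart ends F U Q) := by
    rw [cnt_insert hf hfS]
    congr 1
    refine cnt_congr fun F _ _ => and_congr_right fun h => ?_
    rw [m1 F h]
    exact ⟨fun ⟨h1, h2⟩ => ⟨fun h3 => h1 ((m3 F h2).2 h3), h2⟩,
      fun ⟨h1, h2⟩ => ⟨fun h3 => h1 ((m3 F h2).1 h3), h2⟩⟩
  have k3 : cnt ends (insert f S) (fun F => f ∈ F ∧ Apart ends F U Q) =
      cnt ends S (fun F => ¬ Conn ends F c d ∧ Apart ends F U Q) := by
    have h := cnt_edge (ends := ends) hfS (fun F => Apart ends F U Q)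
    linarith
  have k4 : cnt ends (insert f S) (fun F => f ∈ F ∧ ¬ Conn ends F a b ∧ Apart ends F U Q) =
      cnt ends S (fun F => ¬ Conn ends F c d ∧ ¬ Conn ends F a b ∧ Apart ends F U Q) := by
    have h := cnt_edge (ends := ends) hfS (fun F => ¬ Conn ends F a b ∧ Apart ends F U Q)
    linarith
  -- the effect of `e`
  have l1 : cnt ends (insert e (insert f S)) (fun F => Apart ends F U Q) =
      cnt ends (insert f S) (fun F => Apart ends F U Q) +
        cnt ends (insert f S) (fun F => ¬ Conn ends F a b ∧ Apart ends F U Q) := by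
    rw [cnt_insert he heS]
    congr 1
    exact cnt_congr fun F _ _ => and_congr_right fun h => m2 F h
  have l2 : cnt ends (insert e (insert f S)) (fun F => e ∈ F ∧ Apart ends F U Q) =
      cnt ends (insert f S) (fun F => ¬ Conn ends F a b ∧ Apart ends F U Q) := by
    have h := cnt_edge (ends := ends) heS (fun F => Apart ends F U Q)
    linarith
  have l3 : cnt ends (insert e (insert f S)) (fun F => f ∈ F ∧ Apart ends F U Q) =
      cnt ends (insert f S) (fun F => f ∈ F ∧ Apart ends F U Q) +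
        cnt ends (insert f S) (fun F => f ∈ F ∧ ¬ Conn ends F a b ∧ Apart ends F U Q) := by
    rw [cnt_insert he heS]
    congr 1
    refine cnt_congr fun F _ _ => ?_
    constructor
    · rintro ⟨h1, h2, h3⟩
      refine ⟨?_, h1, (m2 F h1).1 h3⟩
      rcases Finset.mem_insert.1 h2 with h4 | h4
      · exact absurd h4.symm hef
      · exact h4
    · rintro ⟨h1, h2, h3⟩
      exact ⟨h2, Finset.mem_insert_of_mem h1, (m2 F h2).2 h3⟩
  have l4 : cnt ends (insert e (insert f S)) (fun F => e ∈ F ∧ f ∈ F ∧ Apart ends F U Q) =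
      cnt ends (insert f S) (fun F => f ∈ F ∧ ¬ Conn ends F a b ∧ Apart ends F U Q) := by
    have h := cnt_edge (ends := ends) heS (fun F => f ∈ F ∧ Apart ends F U Q)
    linarith
  rw [l1, l2, l3, l4, k1, k2, k3, k4, n0, n1, n2, n3]
  have h3 := cond _ ends S rfl U a b c d ha hb hc hd hab hac had hbc hbd hcd
  nlinarith

end

/-- **Blocking.** -/
theorem blocking [Fintype V] {ends : E → Sym2 V} (S : Finset E) {U : Finset V} {v a b : V}
    (hv : v ∉ U) (ha : a ∈ U) (hb : b ∈ U) (hab : a ≠ b) :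
    cnt ends S (fun F => Conn ends F a b ∧ Apart ends F (insert v U) {s(a, b)}) *
        cnt ends S (fun F => Apart ends F U {s(a, b)}) ≤
      cnt ends S (fun F => Conn ends F a b ∧ Apart ends F U {s(a, b)}) *
        cnt ends S (fun F => Apart ends F (insert v U) {s(a, b)}) := by
  rw [c_conn_one S hab, c_conn_one S hab, c_one S ha hb hab,
    c_one S (Finset.mem_insert_of_mem ha) (Finset.mem_insert_of_mem hb) hab]
  have h := block _ ends S rfl U v a b hv ha hb hab
  unfold Blk at h
  nlinarith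

/-- **Conditional positive correlation.** -/
theorem positive [Fintype V] {ends : E → Sym2 V} {S : Finset E} {U : Finset V} {a b x w : V}
    {e f : E} (he : ends e = s(a, b)) (hf : ends f = s(x, w)) (heS : e ∉ insert f S)
    (hfS : f ∉ S) (ha : a ∈ U) (hb : b ∈ U) (hx : x ∈ U) (hab : a ≠ b) (hax : a ≠ x)
    (hbx : b ≠ x) (hxw : x ≠ w) :
    cnt ends (insert e (insert f S)) (fun F => e ∈ F ∧ Apart ends F U {s(a, b)}) *
      cnt ends (insert e (insert f S)) (fun F => f ∈ F ∧ Apart ends F U {s(a, b)}) ≤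
    cnt ends (insert e (insert f S)) (fun F => e ∈ F ∧ f ∈ F ∧ Apart ends F U {s(a, b)}) *
      cnt ends (insert e (insert f S)) (fun F => Apart ends F U {s(a, b)}) := by
  by_cases hw : w ∈ U
  · have h1 : cnt ends (insert e (insert f S)) (fun F => f ∈ F ∧ Apart ends F U {s(a, b)}) = 0 := by
      refine cnt_false fun F _ _ h => ?_
      rcases mem_one.1 (h.2 x hx w hw hxw (Conn.single h.1 hf)) with ⟨h2, _⟩ | ⟨h2, _⟩
      · exact hax h2.symm
      · exact hbx h2.symm
    rw [h1, mul_zero]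
    exact mul_nonneg (cnt_nonneg _ _ _) (cnt_nonneg _ _ _)
  · have hef : e ≠ f := fun h => heS (h ▸ Finset.mem_insert_self _ _)
    have heS0 : e ∉ S := fun h => heS (Finset.mem_insert_of_mem h)
    have hfe : f ∉ insert e S := by
      rw [Finset.mem_insert]
      rintro (h | h)
      · exact hef h.symm
      · exact hfS h
    set Q : Set (Sym2 V) := {s(a, b)} with hQ
    have q1 : ∀ k, s(k, a) ∈ Q → k = b := by
      intro k hk
      rcases mem_one.1 hk with ⟨_, h⟩ | ⟨h, _⟩
      · exact absurd h hab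
      · exact h
    have q2 : ∀ k, s(k, b) ∈ Q → k = a := by
      intro k hk
      rcases mem_one.1 hk with ⟨h, _⟩ | ⟨_, h⟩
      · exact h
      · exact absurd h hab.symm
    have m2 : ∀ F : Finset E, ¬ Conn ends F a b → (Apart ends (insert e F) U Q ↔
        Apart ends F U Q) := fun F h => apart_insert he ha hb (mem_one.2 (Or.inl ⟨rfl, rfl⟩)) q1 q2 h
    have l1 : ∀ S : Finset E, e ∉ S → cnt ends (insert e S) (fun F => Apart ends F U Q) =
        2 * TT ends S U + XX ends S U a b := by
      intro S heS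
      rw [cnt_insert he heS]
      have h1 : cnt ends S (fun F => Apart ends F U Q) = TT ends S U + XX ends S U a b :=
        c_one S ha hb hab
      have h2 : cnt ends S (fun F => ¬ Conn ends F a b ∧ Apart ends (insert e F) U Q) =
          TT ends S U := by
        refine cnt_congr fun F _ _ => ?_
        rw [sep_iff_one ha hb hab]
        exact and_congr_right fun h => m2 F h
      rw [h1, h2]
      ring
    have l2 : ∀ S : Finset E, e ∉ S → cnt ends (insert e S) (fun F => e ∈ F ∧
        Apart ends F U Q) = TT ends S U := by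
      intro S heS
      have h := cnt_edge (ends := ends) heS (fun F => Apart ends F U Q)
      have h1 : cnt ends S (fun F => Apart ends F U Q) = TT ends S U + XX ends S U a b :=
        c_one S ha hb hab
      have h2 := l1 S heS
      linarith
    have l3 : cnt ends (insert e (insert f S)) (fun F => f ∈ F ∧ Apart ends F U Q) =
        cnt ends (insert e (insert f S)) (fun F => Apart ends F U Q) -
          cnt ends (insert e S) (fun F => Apart ends F U Q) := by
      rw [Finset.insert_comm]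
      have h := cnt_edge (ends := ends) hfe (fun F => Apart ends F U Q)
      linarith
    have l4 : cnt ends (insert e (insert f S)) (fun F => e ∈ F ∧ f ∈ F ∧ Apart ends F U Q) =
        cnt ends (insert e (insert f S)) (fun F => e ∈ F ∧ Apart ends F U Q) -
          cnt ends (insert e S) (fun F => e ∈ F ∧ Apart ends F U Q) := by
      rw [Finset.insert_comm]
      have h := cnt_edge (ends := ends) hfe (fun F => e ∈ F ∧ Apart ends F U Q)
      have h1 : cnt ends (insert f (insert e S)) (fun F => f ∈ F ∧ e ∈ F ∧ Apart ends F U Q) =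
          cnt ends (insert f (insert e S)) (fun F => e ∈ F ∧ f ∈ F ∧ Apart ends F U Q) :=
        cnt_congr fun F _ _ => ⟨fun ⟨h1, h2, h3⟩ => ⟨h2, h1, h3⟩,
          fun ⟨h1, h2, h3⟩ => ⟨h2, h1, h3⟩⟩
      linarith
    rw [l3, l4, l1 _ heS, l1 _ heS0, l2 _ heS, l2 _ heS0,
      TT_del_con hf hx hw hfS, XX_del_con hf hx hw hfS ha hb]
    have h := down hf hx hw hfS ha hb hab hax hbx
    nlinarith

end Pool.Agent.Lib.MP_d90615_h4
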