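import Pool.Agent.Lib.MP_d90615_h4.Fin

/-!
Three terminals in the presence of further terminals.
-/

set_option autoImplicit false

namespace Pool.Agent.Lib.MP_d90615_h4

open Matrix Finset Pool.Agent.Lib.MP_d90615_co Pool.Agent.Lib.MP_d90615_h62.KT
open scoped Classical

variable {V E : Type*}

/-- `a`, `b`, `c` are joined, and nothing else in `U` -/
def Tri (ends : E → Sym2 V) (F : Finset E) (U : Finset V) (a b c : V) : Prop :=
  Conn ends F a b ∧ Conn ends F b c ∧ ∀ k ∈ U, ∀ l ∈ U, k ≠ l → Conn ends F k l →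
    (k = a ∨ k = b ∨ k = c) ∧ (l = a ∨ l = b ∨ l = c)

/-- the number of these forests -/
noncomputable def ZZ (ends : E → Sym2 V) (S : Finset E) (U : Finset V) (a b c : V) : ℝ :=
  cnt ends S (fun F => Tri ends F U a b c)

section

variable {ends : E → Sym2 V} {S : Finset E} {U : Finset V} {a b c : V}

lemma ZZ_del_con {e : E} {w : V} (he : ends e = s(a, w)) (hw : w ∉ U) (heS : e ∉ S)
    (ha : a ∈ U) (hb : b ∈ U) (hc : c ∈ U) :
    ZZ ends (insert e S) U a b c = ZZ ends S U a b c + ZZ (con ends a w) S U a b c := by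
  refine cnt_del_con he (fun h => hw (h ▸ ha)) heS fun F _ => ?_
  have hcc : ∀ i ∈ U, ∀ j ∈ U, (Conn ends (insert e F) i j ↔ Conn (con ends a w) F i j) := by
    intro i hi j hj
    have hiw : i ≠ w := fun h => hw (h ▸ hi)
    have hjw : j ≠ w := fun h => hw (h ▸ hj)
    rw [← conn_con he, gl_of_ne hiw, gl_of_ne hjw]
  unfold Tri
  rw [hcc a ha b hb, hcc b hb c hc]
  refine and_congr_right fun _ => and_congr_right fun _ =>
    forall₂_congr fun k hk => forall₂_congr fun l hl => ?_
  rw [hcc k hk l hl]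

/-- an edge at a separated vertex, added to a forest with `b ~ c` -/
lemma tri_of_insert {F : Finset E} {f : E} {b' : V} (hs : ends f = s(a, b')) (ha : a ∈ U)
    (hb' : b' = b ∨ b' = c) (hb : b ∈ U) (hc : c ∈ U) (hab : a ≠ b) (hac : a ≠ c)
    (hP : Pair ends F U b c) : Tri ends (insert f F) U a b c := by
  obtain ⟨h1, h2, h3⟩ := hP
  have hm : ∀ {k l : V}, Conn ends F k l → Conn ends (insert f F) k l := fun h =>
    h.mono (Finset.subset_insert _ _)
  have hsa : ∀ k ∈ U, Conn ends F k a → k = a := by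
    intro k hk h
    by_contra h4
    rcases h3 k hk a ha h4 h with ⟨_, h5⟩ | ⟨_, h5⟩
    · exact hac h5
    · exact hab h5
  have hsb : ∀ k ∈ U, Conn ends F k b' → k = b ∨ k = c := by
    intro k hk h
    rcases hb' with rfl | rfl
    · by_cases h4 : k = b'
      · exact Or.inl h4
      · rcases h3 k hk b' hb h4 h with ⟨_, h5⟩ | ⟨h5, _⟩
        · exact absurd h5 h1
        · exact Or.inr h5
    · by_cases h4 : k = b'
      · exact Or.inr h4
      · rcases h3 k hk b' hc h4 h with ⟨h5, _⟩ | ⟨_, h5⟩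
        · exact Or.inl h5
        · exact absurd h5.symm h1
  have hab'' : Conn ends (insert f F) a b' := Conn.single (Finset.mem_insert_self _ _) hs
  refine ⟨?_, hm h2, fun k hk l hl hkl hc' => ?_⟩
  · rcases hb' with rfl | rfl
    · exact hab''
    · exact hab''.trans (hm h2).symm
  · rcases (conn_insert hs k l).1 hc' with h4 | ⟨h4, h5⟩ | ⟨h4, h5⟩
    · rcases h3 k hk l hl hkl h4 with ⟨rfl, rfl⟩ | ⟨rfl, rfl⟩
      · exact ⟨Or.inr (Or.inl rfl), Or.inr (Or.inr rfl)⟩
      · exact ⟨Or.inr (Or.inr rfl), Or.inr (Or.inl rfl)⟩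
    · exact ⟨Or.inl (hsa k hk h4), Or.inr (hsb l hl h5.symm)⟩
    · exact ⟨Or.inr (hsb k hk h4), Or.inl (hsa l hl h5.symm)⟩

/-- an `ab` edge added to a forest with `a ~ c` -/
lemma tri_of_insert' {F : Finset E} {f : E} (hs : ends f = s(a, b)) (ha : a ∈ U)
    (hb : b ∈ U) (hab : a ≠ b) (hbc : b ≠ c)
    (hP : Pair ends F U a c) : Tri ends (insert f F) U a b c := by
  obtain ⟨h1, h2, h3⟩ := hP
  have hm : ∀ {k l : V}, Conn ends F k l → Conn ends (insert f F) k l := fun h =>
    h.mono (Finset.subset_insert _ _)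
  have hsb : ∀ k ∈ U, Conn ends F k b → k = b := by
    intro k hk h
    by_contra h4
    rcases h3 k hk b hb h4 h with ⟨_, h5⟩ | ⟨_, h5⟩
    · exact hbc h5
    · exact hab h5.symm
  have hsa : ∀ k ∈ U, Conn ends F k a → k = a ∨ k = c := by
    intro k hk h
    by_cases h4 : k = a
    · exact Or.inl h4
    · rcases h3 k hk a ha h4 h with ⟨h5, _⟩ | ⟨h5, _⟩
      · exact absurd h5 h4
      · exact Or.inr h5
  have hab'' : Conn ends (insert f F) a b := Conn.single (Finset.mem_insert_self _ _) hs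
  refine ⟨hab'', hab''.symm.trans (hm h2), fun k hk l hl hkl hc' => ?_⟩
  have key : ∀ k, (k = a ∨ k = c) → (k = a ∨ k = b ∨ k = c) := by tauto
  rcases (conn_insert hs k l).1 hc' with h4 | ⟨h4, h5⟩ | ⟨h4, h5⟩
  · rcases h3 k hk l hl hkl h4 with ⟨rfl, rfl⟩ | ⟨rfl, rfl⟩
    · exact ⟨Or.inl rfl, Or.inr (Or.inr rfl)⟩
    · exact ⟨Or.inr (Or.inr rfl), Or.inl rfl⟩
  · exact ⟨key k (hsa k hk h4), Or.inr (Or.inl (hsb l hl h5.symm))⟩
  · exact ⟨Or.inr (Or.inl (hsb k hk h4)), key l (hsa l hl h5.symm)⟩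

/-- an edge `f = xy` can be added to forests with `x ≁ y` -/
lemma cnt_mem_eq {f : E} {x y : V} (hs : ends f = s(x, y)) (hfS : f ∈ S)
    {Q : Finset E → Prop} (hQ : ∀ F, Q F → ¬ Conn ends F x y) :
    cnt ends S (fun F => f ∈ F ∧ Q (F.erase f)) = cnt ends S Q := by
  rw [cnt_mem hs hfS Q]
  have h2 := cnt_insert hs (Finset.notMem_erase f S) Q
  rw [Finset.insert_erase hfS, cnt_false (P := fun F => ¬ Conn ends F x y ∧ _) ?_,
    add_zero] at h2
  · rw [h2]
    exact cnt_congr fun F _ _ => ⟨fun h => h.2, fun h => ⟨hQ F h, h⟩⟩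
  · rintro F _ _ ⟨_, h3⟩
    exact hQ _ h3 (Conn.single (Finset.mem_insert_self _ _) hs)

lemma tri_lower (ha : a ∈ U) (hb : b ∈ U) (hc : c ∈ U) (hab : a ≠ b) (hbc : b ≠ c)
    (hac : a ≠ c) :
    mult ends S a b * XX ends S U b c + mult ends S a b * XX ends S U a c +
      mult ends S a c * XX ends S U b c ≤ ZZ ends S U a b c := by
  have nbc : ∀ F, Pair ends F U b c → ¬ Conn ends F a b := by
    rintro F ⟨_, _, h3⟩ h
    rcases h3 a ha b hb hab h with ⟨h4, _⟩ | ⟨h4, _⟩
    · exact hab h4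
    · exact hac h4
  have nbc' : ∀ F, Pair ends F U b c → ¬ Conn ends F a c := by
    rintro F ⟨_, _, h3⟩ h
    rcases h3 a ha c hc hac h with ⟨h4, _⟩ | ⟨h4, _⟩
    · exact hab h4
    · exact hac h4
  have nac : ∀ F, Pair ends F U a c → ¬ Conn ends F a b := by
    rintro F ⟨_, _, h3⟩ h
    rcases h3 a ha b hb hab h with ⟨_, h4⟩ | ⟨h4, _⟩
    · exact hbc h4
    · exact hac h4
  have e1 : mult ends S a b * XX ends S U b c = ∑ f ∈ S.filter (fun f => ends f = s(a, b)),
      cnt ends S (fun F => f ∈ F ∧ Pair ends (F.erase f) U b c) := by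
    rw [Finset.sum_congr rfl (g := fun _ => XX ends S U b c) fun f hf => ?_,
      Finset.sum_const, nsmul_eq_mul, mult]
    rw [Finset.mem_filter] at hf
    exact cnt_mem_eq hf.2 hf.1 (Q := fun F => Pair ends F U b c) nbc
  have e2 : mult ends S a b * XX ends S U a c = ∑ f ∈ S.filter (fun f => ends f = s(a, b)),
      cnt ends S (fun F => f ∈ F ∧ Pair ends (F.erase f) U a c) := by
    rw [Finset.sum_congr rfl (g := fun _ => XX ends S U a c) fun f hf => ?_,
      Finset.sum_const, nsmul_eq_mul, mult]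
    rw [Finset.mem_filter] at hf
    exact cnt_mem_eq hf.2 hf.1 (Q := fun F => Pair ends F U a c) nac
  have e3 : mult ends S a c * XX ends S U b c = ∑ f ∈ S.filter (fun f => ends f = s(a, c)),
      cnt ends S (fun F => f ∈ F ∧ Pair ends (F.erase f) U b c) := by
    rw [Finset.sum_congr rfl (g := fun _ => XX ends S U b c) fun f hf => ?_,
      Finset.sum_const, nsmul_eq_mul, mult]
    rw [Finset.mem_filter] at hf
    exact cnt_mem_eq hf.2 hf.1 (Q := fun F => Pair ends F U b c) nbc'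
  -- the three kinds of forests
  have f1 : ∑ f ∈ S.filter (fun f => ends f = s(a, b)),
      cnt ends S (fun F => f ∈ F ∧ Pair ends (F.erase f) U b c) ≤
        cnt ends S (fun F => (∃ f ∈ F, ends f = s(a, b) ∧ Pair ends (F.erase f) U b c)) := by
    refine sum_le_cnt _ (fun f F => f ∈ F ∧ Pair ends (F.erase f) U b c) fun F _ hF f hf hQ => ?_
    rw [Finset.mem_filter] at hf
    refine ⟨⟨f, hQ.1, hf.2, hQ.2⟩, fun g hg hQ' => ?_⟩
    by_contra hgf
    rw [Finset.mem_filter] at hg
    exact nbc _ hQ.2 (Conn.single (Finset.mem_erase.2 ⟨hgf, hQ'.1⟩) hg.2)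
  have f2 : ∑ f ∈ S.filter (fun f => ends f = s(a, b)),
      cnt ends S (fun F => f ∈ F ∧ Pair ends (F.erase f) U a c) ≤
        cnt ends S (fun F => (∃ f ∈ F, ends f = s(a, b) ∧ Pair ends (F.erase f) U a c)) := by
    refine sum_le_cnt _ (fun f F => f ∈ F ∧ Pair ends (F.erase f) U a c) fun F _ hF f hf hQ => ?_
    rw [Finset.mem_filter] at hf
    refine ⟨⟨f, hQ.1, hf.2, hQ.2⟩, fun g hg hQ' => ?_⟩
    by_contra hgf
    rw [Finset.mem_filter] at hg
    exact nac _ hQ.2 (Conn.single (Finset.mem_erase.2 ⟨hgf, hQ'.1⟩) hg.2)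
  have f3 : ∑ f ∈ S.filter (fun f => ends f = s(a, c)),
      cnt ends S (fun F => f ∈ F ∧ Pair ends (F.erase f) U b c) ≤
        cnt ends S (fun F => (∃ f ∈ F, ends f = s(a, c) ∧ Pair ends (F.erase f) U b c)) := by
    refine sum_le_cnt _ (fun f F => f ∈ F ∧ Pair ends (F.erase f) U b c) fun F _ hF f hf hQ => ?_
    rw [Finset.mem_filter] at hf
    refine ⟨⟨f, hQ.1, hf.2, hQ.2⟩, fun g hg hQ' => ?_⟩
    by_contra hgf
    rw [Finset.mem_filter] at hg
    exact nbc' _ hQ.2 (Conn.single (Finset.mem_erase.2 ⟨hgf, hQ'.1⟩) hg.2)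
  rw [e1, e2, e3]
  refine (add_le_add (add_le_add f1 f2) f3).trans ?_
  rw [← cnt_or, ← cnt_or]
  · refine cnt_mono fun F _ _ h => ?_
    rcases h with (⟨f, hf, hs, hP⟩ | ⟨f, hf, hs, hP⟩) | ⟨f, hf, hs, hP⟩
    · have := tri_of_insert (ends := ends) (F := F.erase f) hs ha (Or.inl rfl) hb hc hab hac hP
      rwa [Finset.insert_erase hf] at this
    · have := tri_of_insert' (ends := ends) (F := F.erase f) hs ha hb hab hbc hP
      rwa [Finset.insert_erase hf] at this
    · have := tri_of_insert (ends := ends) (F := F.erase f) hs ha (Or.inr rfl) hb hc hab hac hP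
      rwa [Finset.insert_erase hf] at this
  · rintro F _ hF (⟨f, hf, hs, hP⟩ | ⟨f, hf, hs, hP⟩) ⟨g, hg, hs', hP'⟩
    · -- an `ab` edge in `F`, none in `F.erase g`
      have hfg : f ≠ g := by
        rintro rfl
        rw [hs] at hs'
        rcases Sym2.eq_iff.mp hs' with ⟨_, h⟩ | ⟨h, _⟩
        · exact hbc h
        · exact hac h
      exact nbc _ hP' (Conn.single (Finset.mem_erase.2 ⟨hfg, hf⟩) hs)
    · have hfg : f ≠ g := by
        rintro rfl
        rw [hs] at hs'
        rcases Sym2.eq_iff.mp hs' with ⟨_, h⟩ | ⟨h, _⟩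
        · exact hbc h
        · exact hac h
      exact nbc _ hP' (Conn.single (Finset.mem_erase.2 ⟨hfg, hf⟩) hs)
  · rintro F _ hF ⟨f, hf, hs, hP⟩ ⟨g, hg, hs', hP'⟩
    have hfg : f = g := by
      by_contra hfg
      exact nbc _ hP (Conn.single (Finset.mem_erase.2 ⟨fun h => hfg h.symm, hg⟩) hs')
    subst hfg
    exact nbc' _ hP hP'.2.1

lemma tri_base (ha : a ∈ U) (hb : b ∈ U) (hc : c ∈ U) (hab : a ≠ b) (hbc : b ≠ c)
    (hac : a ≠ c) (hno : ∀ f ∈ S, ∀ w, ends f = s(a, w) → w ∈ U) :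
    XX ends S U a b * XX ends S U b c + XX ends S U b c * XX ends S U a c +
      XX ends S U a c * XX ends S U a b ≤ ZZ ends S U a b c * TT ends S U := by
  have up : ∀ j ∈ U, XX ends S U a j ≤ mult ends S a j * TT ends S U := by
    intro j hj
    refine base_upper ha hno fun F _ hF hP => ?_
    obtain ⟨h2, h3, h4⟩ := hP
    refine ⟨h2, h3, fun k hk hki hc => ?_, fun f hf hs => ?_⟩
    · rcases h4 a ha k hk hki.symm hc with ⟨_, h5⟩ | ⟨h5, _⟩
      · exact h5
      · exact absurd h5 h2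
    · intro k hk l hl hkl hc
      have h5 := hF f hf a j hs
      rcases h4 k hk l hl hkl (hc.mono (Finset.erase_subset _ _)) with ⟨rfl, rfl⟩ | ⟨rfl, rfl⟩
      · exact h5 hc
      · exact h5 hc.symm
  have h1 := up b hb
  have h2 := up c hc
  have h3 := tri_lower (ends := ends) (S := S) ha hb hc hab hbc hac
  have hT := (TT_pos ends S U).le
  have p1 := XX_nonneg ends S U b c
  have p2 := XX_nonneg ends S U a c
  have h4 := mul_le_mul_of_nonneg_right h3 hT
  have h5 := mul_le_mul_of_nonneg_right h1 p1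
  have h6 := mul_le_mul_of_nonneg_right h1 p2
  have h7 := mul_le_mul_of_nonneg_right h2 p1
  nlinarith

/-- the form at a combination of two indicators -/
lemma QQ_two (ends : E → Sym2 V) (S : Finset E) {U : Finset V} {b c : V} (hb : b ∈ U)
    (hc : c ∈ U) (hbc : b ≠ c) (β γ : ℝ) :
    QQ ends S U (fun _ => True) (fun w => if w = b then β else if w = c then γ else 0) =
      β ^ 2 * ∑ s ∈ U, XX ends S U s b + γ ^ 2 * ∑ s ∈ U, XX ends S U s c -
        2 * β * γ * XX ends S U b c := by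
  obtain ⟨x, hx⟩ : ∃ x : V → ℝ, x = fun w => if w = b then β else if w = c then γ else 0 :=
    ⟨_, rfl⟩
  have hxb : x b = β := by rw [hx]; simp
  have hxc : x c = γ := by rw [hx]; simp [hbc.symm]
  have hx0 : ∀ w, w ≠ b → w ≠ c → x w = 0 := by
    intro w h1 h2
    rw [hx]
    simp [h1, h2]
  rw [← hx]
  have h1 : ∀ i ∈ U, ∀ k ∈ U, cnt ends S (fun F => Pair ends F U i k ∧ True) *
      (x i - x k) ^ 2 = XX ends S U i k * x i ^ 2 + XX ends S U i k * x k ^ 2 -
        2 * (XX ends S U i k * x i * x k) := by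
    intro i _ k _
    have h2 : cnt ends S (fun F => Pair ends F U i k ∧ True) = XX ends S U i k :=
      cnt_congr fun _ _ _ => ⟨fun h => h.1, fun h => ⟨h, trivial⟩⟩
    rw [h2]
    ring
  have hsum : ∀ g : V → ℝ, (∀ w ∈ U, w ≠ b → w ≠ c → g w = 0) → ∑ w ∈ U, g w = g b + g c := by
    intro g hg
    rw [← Finset.add_sum_erase U g hb, ← Finset.add_sum_erase (U.erase b) g
      (Finset.mem_erase.2 ⟨hbc.symm, hc⟩), Finset.sum_eq_zero, add_zero]
    intro w hw
    rw [Finset.mem_erase, Finset.mem_erase] at hw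
    exact hg w hw.2.2 hw.2.1 hw.1
  have a1 : ∑ i ∈ U, ∑ k ∈ U, XX ends S U i k * x i ^ 2 =
      β ^ 2 * ∑ s ∈ U, XX ends S U s b + γ ^ 2 * ∑ s ∈ U, XX ends S U s c := by
    rw [hsum (fun i => ∑ k ∈ U, XX ends S U i k * x i ^ 2)
      (fun w _ h2 h3 => by simp [hx0 w h2 h3])]
    simp only [hxb, hxc]
    rw [← Finset.sum_mul, ← Finset.sum_mul, mul_comm, mul_comm _ (γ ^ 2)]
    congr 1
    · congr 1
      exact Finset.sum_congr rfl fun s _ => XX_symm _ _ _ _ _
    · congr 1
      exact Finset.sum_congr rfl fun s _ => XX_symm _ _ _ _ _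
  have a2 : ∑ i ∈ U, ∑ k ∈ U, XX ends S U i k * x k ^ 2 =
      β ^ 2 * ∑ s ∈ U, XX ends S U s b + γ ^ 2 * ∑ s ∈ U, XX ends S U s c := by
    rw [Finset.sum_comm, ← a1]
    exact Finset.sum_congr rfl fun i _ => Finset.sum_congr rfl fun k _ => by rw [XX_symm]
  have a3 : ∑ i ∈ U, ∑ k ∈ U, XX ends S U i k * x i * x k = 2 * β * γ * XX ends S U b c := by
    rw [hsum (fun i => ∑ k ∈ U, XX ends S U i k * x i * x k)
      (fun w _ h2 h3 => by simp [hx0 w h2 h3]),
      hsum (fun k => XX ends S U b k * x b * x k) (fun w _ h2 h3 => by simp [hx0 w h2 h3]),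
      hsum (fun k => XX ends S U c k * x c * x k) (fun w _ h2 h3 => by simp [hx0 w h2 h3]),
      XX_self, XX_self, XX_symm ends S U c b, hxb, hxc]
    ring
  unfold QQ
  rw [Finset.sum_congr rfl (fun i hi => Finset.sum_congr rfl (fun k hk => h1 i hi k hk))]
  simp only [Finset.sum_sub_distrib, Finset.sum_add_distrib, ← Finset.mul_sum]
  rw [a1, a2, a3]
  ring

/-- the increments of the responses of `a`, `b`, `c` -/
lemma incr_form [Fintype V] {e : E} {w : V} (he : ends e = s(a, w)) (ha : a ∈ U)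
    (hw : w ∉ U) (heS : e ∉ S) (hb : b ∈ U) (hc : c ∈ U) (hab : a ≠ b) (hbc : b ≠ c)
    (hac : a ≠ c) (β γ : ℝ) :
    0 ≤ (TT ends S U * XX (con ends a w) S U a c - TT (con ends a w) S U * XX ends S U a c) *
        γ ^ 2 +
      (TT ends S U * XX (con ends a w) S U a b - TT (con ends a w) S U * XX ends S U a b) *
        β ^ 2 +
      (TT ends S U * XX (con ends a w) S U b c - TT (con ends a w) S U * XX ends S U b c) *
        (β - γ) ^ 2 := by
  have haw : a ≠ w := fun h => hw (h ▸ ha)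
  have h1 := add_edge' ends he haw heS ha
    (fun w => if w = b then β else if w = c then γ else 0)
  rw [QQ_two ends S hb hc hbc, QQ_two ends (insert e S) hb hc hbc] at h1
  have h3 : cnt ends (insert e S) (fun F => Pool.Agent.Lib.MP_d90615_h62.KT.Sep ends F U) =
      TT ends S U + TT (con ends a w) S U := TT_del_con he ha hw heS
  have h4 : cnt ends S (fun F => Pool.Agent.Lib.MP_d90615_h62.KT.Sep ends F U) =
      TT ends S U := rfl
  have h5 : ∀ j ∈ U, ∑ s ∈ U, XX ends (insert e S) U s j =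
      ∑ s ∈ U, XX ends S U s j + ∑ s ∈ U, XX (con ends a w) S U s j := by
    intro j hj
    rw [← Finset.sum_add_distrib]
    exact Finset.sum_congr rfl fun s hs => XX_del_con he ha hw heS hs hj
  rw [h3, h4, h5 b hb, h5 c hc, XX_del_con he ha hw heS hb hc] at h1
  -- the row sums
  have h6 : ∀ j ∈ U, ∀ k ∈ U, a ≠ j → a ≠ k → j ≠ k →
      TT ends S U * ∑ s ∈ U, XX (con ends a w) S U s j -
        TT (con ends a w) S U * ∑ s ∈ U, XX ends S U s j ≤
      (TT ends S U * XX (con ends a w) S U a j - TT (con ends a w) S U * XX ends S U a j) +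
        (TT ends S U * XX (con ends a w) S U j k -
          TT (con ends a w) S U * XX ends S U j k) := by
    intro j hj k hk haj hak hjk
    have hk' : k ∈ U.erase a := Finset.mem_erase.2 ⟨hak.symm, hk⟩
    rw [← Finset.add_sum_erase U _ ha, ← Finset.add_sum_erase U _ ha,
      ← Finset.add_sum_erase (U.erase a) _ hk', ← Finset.add_sum_erase (U.erase a) _ hk',
      XX_symm _ S U k j, XX_symm _ S U k j]
    have h7 : TT ends S U * ∑ s ∈ (U.erase a).erase k, XX (con ends a w) S U s j ≤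
        TT (con ends a w) S U * ∑ s ∈ (U.erase a).erase k, XX ends S U s j := by
      rw [Finset.mul_sum, Finset.mul_sum]
      refine Finset.sum_le_sum fun s hs => ?_
      rw [Finset.mem_erase, Finset.mem_erase] at hs
      by_cases hsj : s = j
      · subst hsj
        rw [XX_self, XX_self]
        simp
      · exact down he ha hw heS hs.2.2 hj hsj hs.2.1 haj.symm
    linarith
  have h7 := mul_le_mul_of_nonneg_left (h6 b hb c hc hab hac hbc) (sq_nonneg β)
  have h8 := mul_le_mul_of_nonneg_left (h6 c hc b hb hac hab hbc.symm) (sq_nonneg γ)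
  rw [XX_symm _ S U c b, XX_symm _ S U c b] at h8
  nlinarith

end

/-- **Three terminals, in the presence of further terminals.** -/
theorem tri [Fintype V] : ∀ (n : ℕ) (ends : E → Sym2 V) (S : Finset E), S.card = n →
    ∀ (U : Finset V) (a b c : V), a ∈ U → b ∈ U → c ∈ U → a ≠ b → b ≠ c → a ≠ c →
      XX ends S U a b * XX ends S U b c + XX ends S U b c * XX ends S U a c +
        XX ends S U a c * XX ends S U a b ≤ ZZ ends S U a b c * TT ends S U := by
  intro n
  induction n using Nat.strong_induction_on with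
  | _ n ih =>
    intro ends S hS U a b c ha hb hc hab hbc hac
    by_cases hex : ∃ e ∈ S, ∃ w, ends e = s(a, w) ∧ w ∉ U
    · obtain ⟨e, heS, w, he, hw⟩ := hex
      obtain ⟨S', hS', heS'⟩ : ∃ S', S = insert e S' ∧ e ∉ S' :=
        ⟨S.erase e, (Finset.insert_erase heS).symm, Finset.notMem_erase _ _⟩
      have hn : S'.card < n := by
        rw [hS', Finset.card_insert_of_notMem heS'] at hS
        omega
      subst hS'
      have hI := fun (ends' : E → Sym2 V) =>
        ih S'.card hn ends' S' rfl U a b c ha hb hc hab hbc hac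
      have he2 := e2_of_form (incr_form he ha hw heS' hb hc hab hbc hac)
      rw [TT_del_con he ha hw heS', ZZ_del_con he hw heS' ha hb hc,
        XX_del_con he ha hw heS' ha hb, XX_del_con he ha hw heS' hb hc,
        XX_del_con he ha hw heS' ha hc]
      exact kappa_algebra (TT_pos _ _ _) (TT_pos _ _ _) (hI ends) (hI _) (by linarith)
    · push Not at hex
      exact tri_base ha hb hc hab hbc hac fun f hf w hw => hex f hf w hw

end Pool.Agent.Lib.MP_d90615_h4
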